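import Pool.Agent.MP_ed9623_an.H77.SpecZ
import Pool.Agent.MP_ed9623_an.H64.Poincare

/-! Poincare inequality and compact embedding. -/

open MeasureTheory Filter Topology Set
open scoped ContDiff InnerProductSpace

namespace Pool.Agent.MP_ed9623_an.H77

open H64

namespace Cpt

theorem cpt_of {E F : Type} [NormedAddCommGroup E] [NormedSpace ℝ E] [NormedAddCommGroup F]
    [NormedSpace ℝ F] [CompleteSpace F] (T : E →L[ℝ] F)
    (h : ∀ ε > 0, ∃ (ι : Type) (_ : Fintype ι) (Λ : E →L[ℝ] ι → ℝ) (A : ℝ), 0 < A ∧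
      ∀ v, ‖T v‖ ^ 2 ≤ ε * ‖v‖ ^ 2 + A * ‖Λ v‖ ^ 2) : IsCompactOperator T := by
  refine (isCompactOperator_iff_isCompact_closure_image_ball (T : E →ₗ[ℝ] F) one_pos).2
    (TotallyBounded.isCompact_of_isClosed (TotallyBounded.closure ?_) isClosed_closure)
  refine Metric.totallyBounded_iff.2 fun δ hδ => ?_
  obtain ⟨ι, _, Λ, A, hA, h⟩ := h (δ ^ 2 / 8) (by positivity)
  have hb : TotallyBounded (Λ '' Metric.ball 0 1) :=
    (Λ.lipschitz.isBounded_image Metric.isBounded_ball).isCompact_closure.totallyBounded.subset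
      subset_closure
  obtain ⟨t, h1, h2, h3⟩ := Metric.finite_approx_of_totallyBounded hb
    (Real.sqrt (δ ^ 2 / 2 / A)) (by positivity)
  choose! σ σ1 σ2 using fun y (hy : y ∈ t) => h1 hy
  refine ⟨(fun y => T (σ y)) '' t, h2.image _, ?_⟩
  rintro _ ⟨v, hv, rfl⟩
  obtain ⟨y, hy, hv'⟩ := mem_iUnion₂.1 (h3 ⟨v, hv, rfl⟩)
  refine mem_iUnion₂.2 ⟨_, ⟨y, hy, rfl⟩, ?_⟩
  have a1 := h (v - σ y)
  rw [map_sub, map_sub, σ2 y hy] at a1
  have a2 : ‖v - σ y‖ ≤ 2 := by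
    linarith [norm_sub_le v (σ y), mem_ball_zero_iff.1 hv, mem_ball_zero_iff.1 (σ1 y hy)]
  have a3 : ‖Λ v - y‖ ^ 2 < δ ^ 2 / 2 / A :=
    (Real.lt_sqrt (norm_nonneg _)).1 (mem_ball_iff_norm.1 hv')
  rw [lt_div_iff₀ hA] at a3
  have a4 : ‖v - σ y‖ ^ 2 ≤ 2 ^ 2 := by gcongr
  refine mem_ball_iff_norm.2 (lt_of_pow_lt_pow_left₀ 2 hδ.le ?_)
  show ‖T v - T (σ y)‖ ^ 2 < _
  nlinarith [sq_nonneg δ]

theorem pc {Ω : Set P} {R : ℝ} (hR : 0 ≤ R) (hΩ : Ω ⊆ Metric.ball 0 R) {φ : P → ℝ}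
    (h : Test Ω φ) : nm φ ≤ 2 * R * nm (pd (ee 0) φ) := by
  have h1 := WD.of_cd (contDiff_infty.1 h.1 1) Ω (ee 0) _ (h.smul (m := fun p => p.1) contDiff_fst)
  have m1 := (h.smul (m := fun p => p.1) contDiff_fst).m2
  have m2 := (h.pd (ee 0)).m2
  have e : ∀ x, φ x * pd (ee 0) (fun p : P => p.1 * φ p) x =
      φ x ^ 2 + pd (ee 0) φ x * (x.1 * φ x) := fun x => by
    rw [pd_mul _ differentiableAt_fst (sm_diff h.1 x)]
    have : pd (ee 0) (fun p : P => p.1) x = 1 := by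
      simp [pd, ee, show fderiv ℝ (fun p : P => p.1) x = _ from fderiv_fst]
    rw [this]; ring
  simp only [e] at h1
  rw [integral_add h.m2.int_sq (m2.int_mul m1), ← nm_sq] at h1
  have h2 := abs_int_le m2 m1
  have h3 : nm (fun p : P => p.1 * φ p) ≤ R * nm φ := by
    refine (nm_mono (h.m2.cmul R) (Eventually.of_forall fun x => ?_)).trans
      (by rw [nm_cmul, abs_of_nonneg hR])
    by_cases hx : x ∈ Ω
    · rw [abs_mul, abs_mul, abs_of_nonneg hR]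
      exact mul_le_mul_of_nonneg_right ((norm_fst_le x).trans (mem_ball_zero_iff.1 (hΩ hx)).le)
        (abs_nonneg _)
    · simp [h.off hx]
  have h4 := mul_le_mul_of_nonneg_left h3 (nm_nonneg (pd (ee 0) φ))
  rcases (nm_nonneg φ).eq_or_lt with h0 | h0
  · rw [← h0]
    have := nm_nonneg (pd (ee 0) φ)
    positivity
  · refine le_of_mul_le_mul_right ?_ h0
    nlinarith [neg_abs_le (∫ x, pd (ee 0) φ x * (x.1 * φ x))]

theorem dj_eq (v : E6) : dj v v = ∑ j, ∑ i, ‖v (j, some i)‖ ^ 2 :=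
  Finset.sum_congr rfl fun j _ => Finset.sum_congr rfl fun i _ => by
    rw [← real_inner_self_eq_norm_sq, inner_L]; rfl

theorem norm_eq (v : E6) : ‖v‖ ^ 2 = ∑ j, ‖v (j, none)‖ ^ 2 + dj v v := by
  rw [PiLp.norm_sq_eq_of_L2, dj_eq, Fintype.sum_prod_type, ← Finset.sum_add_distrib]
  exact Finset.sum_congr rfl fun j _ => Fintype.sum_option _

theorem dom {R : ℝ} (hR : 0 < R) : Dom fun p => p.1 ^ 2 + p.2 ^ 2 - R ^ 2 := by
  refine ⟨by fun_prop, fun x hx h => ?_, (Metric.isBounded_ball (x := (0 : P)) (r := R)).subset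
    fun p hp => ?_⟩
  · have d : HasFDerivAt (fun p : P => p.1 ^ 2 + p.2 ^ 2 - R ^ 2) _ x :=
      (((hasFDerivAt_fst (𝕜 := ℝ) (p := x)).pow 2).add
        ((hasFDerivAt_snd (𝕜 := ℝ) (p := x)).pow 2)).sub_const _
    rw [d.fderiv] at h
    have := congrArg (fun l => l x) h
    simp at this
    nlinarith
  · rw [← Q_eq_ball, mem_Q]
    have : p.1 ^ 2 + p.2 ^ 2 - R ^ 2 < 0 := hp
    constructor <;> refine abs_lt_of_sq_lt_sq ?_ hR.le <;> nlinarith

theorem key {Ω : Set P} (hΩ : Bornology.IsBounded Ω) {ε : ℝ} (hε : 0 < ε) :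
    ∃ (m : ℕ) (l : Fin m → L →L[ℝ] ℝ) (A : ℝ), 0 ≤ A ∧ ∀ v ∈ Ys Ω, ∀ j, ‖v (j, none)‖ ^ 2 ≤
      ε * ∑ i, ‖v (j, some i)‖ ^ 2 + A * ∑ i, l i (v (j, none)) ^ 2 := by
  obtain ⟨R, hR, h⟩ := hΩ.subset_ball_lt 0 0
  have hD := dom (R := 2 * R) (by linarith)
  obtain ⟨D, eD⟩ : ∃ D, D = {p : P | p.1 ^ 2 + p.2 ^ 2 - (2 * R) ^ 2 < 0} := ⟨_, rfl⟩
  have sub : Ω ⊆ D := fun p hp => by
    have := h hp
    rw [← Q_eq_ball, mem_Q] at this
    rw [eD]
    show _ < (0 : ℝ)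
    nlinarith [sq_lt_sq' (abs_lt.1 this.1).1 (abs_lt.1 this.1).2,
      sq_lt_sq' (abs_lt.1 this.2).1 (abs_lt.1 this.2).2]
  obtain ⟨m, κ, A, hA, hκ, hP⟩ := hD.poincare hε
  have mκ : ∀ i, M2 (D.indicator (κ i)) := fun i => by
    refine M2.of_int ((hκ i).aestronglyMeasurable.indicator (eD ▸ hD.meas)) ?_
    have : (fun x => D.indicator (κ i) x ^ 2) = D.indicator fun x => κ i x ^ 2 := by
      funext x
      by_cases hx : x ∈ D <;> simp [hx]
    rw [this, integrable_indicator_iff (eD ▸ hD.meas), eD]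
    exact hD.int ((hκ i).pow 2)
  choose l hl using fun i => exists_int (mκ i)
  refine ⟨m, l, A, hA, fun v hv j => ?_⟩
  refine closure_minimal (s := (Y0 Ω : Set E6)) (t := {v : E6 | ‖v (j, none)‖ ^ 2 ≤
    ε * ∑ i, ‖v (j, some i)‖ ^ 2 + A * ∑ i, l i (v (j, none)) ^ 2}) ?_ (isClosed_le ?_ ?_) hv
  · rintro v ⟨φ, hφ, hv⟩
    have t := (hφ j).mono sub
    have := hP (φ j) (contDiff_infty.1 t.1 1) fun x hx => t.off (by rw [eD]; exact hx.not_lt)
    rw [← eD, setIntegral_eq_integral_of_forall_compl_eq_zero fun x hx => by simp [t.off hx],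
      setIntegral_eq_integral_of_forall_compl_eq_zero fun x hx => by simp [(t.pd _).off hx],
      integral_add (t.pd _).m2.int_sq (t.pd _).m2.int_sq, ← nm_sq, ← nm_sq, ← nm_sq] at this
    have e : ∀ i, l i (v (j, none)) = ∫ x in D, κ i x * φ j x := fun i => by
      rw [hl, ← integral_indicator (eD ▸ hD.meas)]
      refine integral_congr_ae ((hv j).1.mono fun x hx => ?_)
      by_cases h : x ∈ D <;> simp [h, ← hx, vl, mul_comm]
    simp only [mem_ofPred_eq, e, ← nm_coe, Fin.sum_univ_two]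
    rw [show nm (v (j, none)) = _ from nm_congr (hv j).1,
      show nm (v (j, some 0)) = _ from nm_congr ((hv j).2 0),
      show nm (v (j, some 1)) = _ from nm_congr ((hv j).2 1)]
    exact this
  · exact (ct_co _).norm.pow 2
  · exact (continuous_const.mul (continuous_finsetSum _ fun i _ => (ct_co _).norm.pow 2)).add
      (continuous_const.mul (continuous_finsetSum _ fun i _ =>
        ((l i).continuous.comp (ct_co _)).pow 2))

end Cpt

open Cpt in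
theorem rowCpt : OfCpt := by
  intro Ω hΩ
  constructor
  · obtain ⟨R, hR, h⟩ := hΩ.subset_ball_lt 0 0
    refine ⟨1 / (1 + 4 * R ^ 2), by positivity, fun v hv => ?_⟩
    have k : ∀ j, ‖v (j, none)‖ ≤ 2 * R * ‖v (j, some 0)‖ := fun j => by
      refine closure_minimal (s := (Y0 Ω : Set E6)) (t := {v : E6 | ‖v (j, none)‖ ≤ 2 * R * ‖v (j, some 0)‖})
        ?_ (isClosed_le (ct_co _).norm (continuous_const.mul (ct_co _).norm)) hv
      rintro v ⟨φ, hφ, hv⟩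
      rw [mem_ofPred_eq, ← nm_coe, ← nm_coe, show nm (v (j, none)) = _ from nm_congr (hv j).1,
        show nm (v (j, some 0)) = _ from nm_congr ((hv j).2 0)]
      exact pc hR.le h (hφ j)
    have k2 : ∀ j, ‖v (j, none)‖ ^ 2 ≤ (2 * R * ‖v (j, some 0)‖) ^ 2 := fun j => by
      gcongr; exact k j
    rw [div_mul_eq_mul_div, one_mul, div_le_iff₀ (by positivity), norm_eq, dj_eq]
    simp only [Fin.sum_univ_two]
    nlinarith [k2 0, k2 1, mul_nonneg (sq_nonneg R) (sq_nonneg ‖v (0, some 1)‖),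
      mul_nonneg (sq_nonneg R) (sq_nonneg ‖v (1, some 1)‖)]
  · refine cpt_of _ fun ε hε => ?_
    obtain ⟨m, l, A, hA, h⟩ := key hΩ hε
    refine ⟨Fin 2 × Fin m, inferInstance, ContinuousLinearMap.pi fun k => l k.2 ∘L
      PiLp.proj 2 (fun _ : Ix => L) (k.1, none) ∘L (Vs Ω).subtypeL, 2 * m * A + 1, by positivity,
      fun v => ?_⟩
    set Λ := (ContinuousLinearMap.pi fun k : Fin 2 × Fin m => l k.2 ∘L
      PiLp.proj 2 (fun _ : Ix => L) (k.1, none) ∘L (Vs Ω).subtypeL) v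
    have b : ∀ j, ∑ i, l i (v.1 (j, none)) ^ 2 ≤ m * ‖Λ‖ ^ 2 := fun j =>
      (Finset.sum_le_card_nsmul _ _ (‖Λ‖ ^ 2) fun i _ =>
        sq_le_sq' (abs_le.1 (norm_le_pi_norm Λ (j, i))).1
          (abs_le.1 (norm_le_pi_norm Λ (j, i))).2).trans (by simp)
    have h0 := h v (Vs_le_Ys Ω v.2) 0
    have h1 := h v (Vs_le_Ys Ω v.2) 1
    have n := norm_eq v.1
    rw [dj_eq, Fin.sum_univ_two, Fin.sum_univ_two] at n
    rw [PiLp.norm_sq_eq_of_L2, Fin.sum_univ_two]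
    show ‖v.1 (0, none)‖ ^ 2 + ‖v.1 (1, none)‖ ^ 2 ≤ ε * ‖v.1‖ ^ 2 + _
    nlinarith [mul_le_mul_of_nonneg_left (b 0) hA, mul_le_mul_of_nonneg_left (b 1) hA,
      sq_nonneg ‖Λ‖, mul_nonneg hε.le (sq_nonneg ‖v.1 (0, none)‖),
      mul_nonneg hε.le (sq_nonneg ‖v.1 (1, none)‖)]

end Pool.Agent.MP_ed9623_an.H77
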